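import Mathlib
import Pool.Agent.R970.SI.Main
import Pool.Agent.R970.SI.Hyp

/-!
# The theory of the hyperfinite II_1 factor is not simple

The definitions of the structures, of formulas and of the hyperfinite II_1 factor are in
`Pool.Agent.H504R3.SDefs`; elementary embeddings, types, indiscernible sequences, dividing and simple
theories are defined in `Pool.Agent.R970.SI.Simple`.

Idea: let `M` be the II_1 factor generated by the Pauli matrices `X_s, Z_s` at the sites `s` of an
uncountable set `I × ℕ`; `M` is elementarily equivalent to `R` (a formula has the same value at
corresponding elements of a finite tensor product of matrix algebras, at whatever sites and in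
whatever such factor). Let `B = {Z_(α,0), Z_(α,1) : α ∈ I}` and let `p` be a limit of the types of
unitaries `u` with `u Z_(α,0) = Z_(α,1) u` for all `α` in a finite set. Given a separable
`A ⊆ B` there is `α` with `Z_(α,1) ∉ A`, and the sequence which replaces `Z_(α,1)` by
`Z_(α,1+i)`, `i = 0, 1, …`, is indiscernible over `A`; but no (almost) unitary conjugates `Z_(α,0)` to
both `Z_(α,1)` and `Z_(α,2)`.
-/

set_option autoImplicit false

namespace Pool.Agent.Results.MP_baa3fb_lc.NotSimple

open Pool.Agent.H504R3.S Pool.Agent.R970.SI

/-- The hyperfinite II_1 factor exists, and its continuous theory is not simple. -/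
theorem result : (∃ R : Str, R.IsHyperfinite) ∧ ∀ R : Str, R.IsHyperfinite → ¬ IsSimpleTheory R :=
  ⟨exists_hyp, not_simple⟩

end Pool.Agent.Results.MP_baa3fb_lc.NotSimple
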